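import Pool.Agent.helper32.QS.Spec

/-! Module PSI of the project QS (step formula). -/

set_option autoImplicit false

namespace QS

open scoped commutatorElement Pointwise

/-- elements of a product of two subgroups, the second one normalising the first one -/
theorem PSI_mem_sup {G : Type} [Group G] (A E : Subgroup G)
    (h : ∀ e ∈ E, ∀ a ∈ A, e * a * e⁻¹ ∈ A) (x : G) :
    x ∈ A ⊔ E ↔ ∃ a ∈ A, ∃ e ∈ E, a * e = x := by
  constructor
  · intro hx
    let T : Subgroup G :=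
      { carrier := {x | ∃ a ∈ A, ∃ e ∈ E, a * e = x}
        one_mem' := ⟨1, A.one_mem, 1, E.one_mem, by simp⟩
        mul_mem' := by
          rintro x y ⟨a, ha, e, he, rfl⟩ ⟨b, hb, f, hf, rfl⟩
          exact ⟨a * (e * b * e⁻¹), A.mul_mem ha (h e he b hb), e * f, E.mul_mem he hf, by group⟩
        inv_mem' := by
          rintro x ⟨a, ha, e, he, rfl⟩
          refine ⟨e⁻¹ * a⁻¹ * (e⁻¹)⁻¹, h e⁻¹ (E.inv_mem he) a⁻¹ (A.inv_mem ha), e⁻¹,
            E.inv_mem he, by group⟩ }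
    have hT : A ⊔ E ≤ T := by
      refine sup_le ?_ ?_
      · intro a ha
        exact ⟨a, ha, 1, E.one_mem, by simp⟩
      · intro e he
        exact ⟨1, A.one_mem, e, he, by simp⟩
    exact hT hx
  · rintro ⟨a, ha, e, he, rfl⟩
    exact (A ⊔ E).mul_mem (Subgroup.mem_sup_left ha) (Subgroup.mem_sup_right he)

theorem PSI_chi_eq {G : Type} [Group G] (p : ℕ) (X : Subgroup G)
    [Fintype (Finset (Subgroup G))] [DecidablePred (fun s => s ∈ Chn p X)] :
    chi p X = ∑ s : Finset (Subgroup G),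
      if s ∈ Chn p X then (-1 : ℤ) ^ (s.card + 1) else 0 := by
  unfold chi
  rw [finsum_eq_sum_of_fintype]
  refine Finset.sum_congr rfl fun s _ => ?_
  rw [finsum_eq_if]

theorem PSI_mem_conj {G : Type} [Group G] (X : Subgroup G) (k x : G) :
    x ∈ X.map (MulAut.conj k).toMonoidHom ↔ k⁻¹ * x * k ∈ X := by
  constructor
  · rintro ⟨y, hy, rfl⟩
    have : k⁻¹ * (MulAut.conj k) y * k = y := by
      rw [MulAut.conj_apply]; group
    change k⁻¹ * (MulAut.conj k) y * k ∈ X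
    rw [this]; exact hy
  · intro h
    refine ⟨k⁻¹ * x * k, h, ?_⟩
    change (MulAut.conj k) (k⁻¹ * x * k) = x
    rw [MulAut.conj_apply]; group

theorem PSI_EAb_conj {G : Type} [Group G] (p : ℕ) (E : Subgroup G) (k : G) (h : EAb p E) :
    EAb p (E.map (MulAut.conj k).toMonoidHom) := by
  obtain ⟨h1, h2⟩ := h
  constructor
  · rintro _ ⟨x, hx, rfl⟩ _ ⟨y, hy, rfl⟩
    rw [← map_mul, ← map_mul, h1 x hx y hy]
  · rintro _ ⟨x, hx, rfl⟩
    rw [← map_pow, h2 x hx, map_one]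

theorem PSI_map_inv {G : Type} [Group G] (E : Subgroup G) (k : G) :
    (E.map (MulAut.conj k).toMonoidHom).map (MulAut.conj k⁻¹).toMonoidHom = E := by
  ext x
  rw [PSI_mem_conj, PSI_mem_conj]
  have : k⁻¹ * ((k⁻¹)⁻¹ * x * k⁻¹) * k = x := by group
  rw [this]

theorem PSI_chn_conj {G : Type} [Group G] (p : ℕ) (X : Subgroup G) (k : G)
    (s : Finset (Subgroup G)) (t : Finset (Subgroup G))
    (ht : ∀ F, F ∈ t ↔ ∃ E ∈ s, E.map (MulAut.conj k).toMonoidHom = F)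
    (h : s ∈ Chn p X) : t ∈ Chn p (X.map (MulAut.conj k).toMonoidHom) := by
  obtain ⟨h1, h2⟩ := h
  constructor
  · intro A hA B hB hAB
    obtain ⟨A', hA', rfl⟩ := (ht A).1 (Finset.mem_coe.1 hA)
    obtain ⟨B', hB', rfl⟩ := (ht B).1 (Finset.mem_coe.1 hB)
    have hne : A' ≠ B' := fun h => hAB (by rw [h])
    rcases h1 (Finset.mem_coe.2 hA') (Finset.mem_coe.2 hB') hne with h | h
    · exact Or.inl (Subgroup.map_mono h)
    · exact Or.inr (Subgroup.map_mono h)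
  · intro F hF
    obtain ⟨E, hE, rfl⟩ := (ht F).1 hF
    obtain ⟨h3, h4, h5⟩ := h2 E hE
    refine ⟨?_, PSI_EAb_conj p E k h4, Subgroup.map_mono h5⟩
    intro h6
    apply h3
    rw [← PSI_map_inv E k, h6, Subgroup.map_bot]

theorem PSI_conj {G : Type} [Group G] [Finite G] (p : ℕ) (X : Subgroup G) (k : G) :
    chi p (X.map (MulAut.conj k).toMonoidHom) = chi p X := by
  classical
  letI : Fintype (Subgroup G) := Fintype.ofFinite _
  rw [PSI_chi_eq, PSI_chi_eq]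
  symm
  have hinj : Function.Injective (fun E : Subgroup G => E.map (MulAut.conj k).toMonoidHom) := by
    intro A B hAB
    have := congrArg (fun E : Subgroup G => E.map (MulAut.conj k⁻¹).toMonoidHom) hAB
    simpa only [PSI_map_inv] using this
  have hbij : Function.Bijective
      (fun s : Finset (Subgroup G) => s.image (fun E => E.map (MulAut.conj k).toMonoidHom)) := by
    rw [← Finite.injective_iff_bijective]
    exact Finset.image_injective hinj
  refine Fintype.sum_bijective _ hbij _ _ fun s => ?_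
  have hcard : (s.image (fun E : Subgroup G => E.map (MulAut.conj k).toMonoidHom)).card = s.card :=
    Finset.card_image_of_injective _ hinj
  have hiff : s ∈ Chn p X ↔ s.image (fun E : Subgroup G => E.map (MulAut.conj k).toMonoidHom) ∈
      Chn p (X.map (MulAut.conj k).toMonoidHom) := by
    constructor
    · intro h
      refine PSI_chn_conj p X k s _ ?_ h
      intro F
      rw [Finset.mem_image]
    · intro h
      have := PSI_chn_conj p (X.map (MulAut.conj k).toMonoidHom) k⁻¹ _ s ?_ h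
      · rwa [PSI_map_inv] at this
      · intro F
        constructor
        · intro hF
          exact ⟨F.map (MulAut.conj k).toMonoidHom, Finset.mem_image_of_mem _ hF, PSI_map_inv F k⟩
        · rintro ⟨E, hE, rfl⟩
          obtain ⟨E', hE', rfl⟩ := Finset.mem_image.1 hE
          rw [PSI_map_inv]; exact hE'
  simp only [hcard]
  by_cases h : s ∈ Chn p X
  · rw [if_pos h, if_pos (hiff.1 h)]
  · rw [if_neg h, if_neg (fun h' => h (hiff.2 h'))]

/-- a `p`-element of a `p'`-subgroup is trivial -/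
theorem PSI_coprime {G : Type} [Group G] [Finite G] (p : ℕ) (hp : p.Prime) (K : Subgroup G)
    (hK : ¬ p ∣ Nat.card K) (x : G) (hx : x ∈ K) (n : ℕ) (hn : x ^ p ^ n = 1) : x = 1 := by
  have h1 : orderOf x ∣ p ^ n := orderOf_dvd_of_pow_eq_one hn
  have h2 : orderOf x ∣ Nat.card K := by
    have := orderOf_dvd_natCard (⟨x, hx⟩ : K)
    rwa [Subgroup.orderOf_mk] at this
  have h3 : Nat.Coprime (p ^ n) (Nat.card K) :=
    Nat.Coprime.pow_left n ((Nat.Prime.coprime_iff_not_dvd hp).2 hK)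
  have h4 : orderOf x = 1 := Nat.eq_one_of_dvd_coprimes h3 h1 h2
  exact orderOf_eq_one_iff.1 h4

/-- a `p`-subgroup of `K E` is conjugate into `E` by an element of `K` -/
theorem PSI_exists {G : Type} [Group G] [Finite G] (p : ℕ) (hp : p.Prime) (K E : Subgroup G)
    (hK : ¬ p ∣ Nat.card K) (hE : EAb p E) (hKE : ∀ e ∈ E, ∀ a ∈ K, e * a * e⁻¹ ∈ K)
    (F : Subgroup G) (hF : EAb p F) (hFY : F ≤ K ⊔ E) :
    ∃ k ∈ K, ∀ f ∈ F, k⁻¹ * f * k ∈ E := by
  haveI : Fact p.Prime := ⟨hp⟩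
  have hpE : IsPGroup p (E.subgroupOf (K ⊔ E)) := by
    intro x
    refine ⟨1, ?_⟩
    apply Subtype.ext
    apply Subtype.ext
    have h := hE.2 _ (Subgroup.mem_subgroupOf.1 x.2)
    simpa using h
  have hpF : IsPGroup p (F.subgroupOf (K ⊔ E)) := by
    intro x
    refine ⟨1, ?_⟩
    apply Subtype.ext
    apply Subtype.ext
    have h := hF.2 _ (Subgroup.mem_subgroupOf.1 x.2)
    simpa using h
  obtain ⟨P, hP⟩ := hpE.exists_le_sylow
  obtain ⟨Q, hQ⟩ := hpF.exists_le_sylow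
  have hPE : ∀ x : ↥(K ⊔ E), x ∈ P → (x : G) ∈ E := by
    intro x hx
    obtain ⟨a, ha, e, he, hae⟩ := (PSI_mem_sup K E hKE x).1 x.2
    have heY : e ∈ K ⊔ E := Subgroup.mem_sup_right he
    have heP : (⟨e, heY⟩ : ↥(K ⊔ E)) ∈ P := hP (Subgroup.mem_subgroupOf.2 he)
    have haP : x * (⟨e, heY⟩ : ↥(K ⊔ E))⁻¹ ∈ P := mul_mem hx (inv_mem heP)
    obtain ⟨n, hn⟩ := P.isPGroup' ⟨_, haP⟩
    have hn' := congrArg (fun z : P => ((z : ↥(K ⊔ E)) : G)) hn
    have hval : ((x * (⟨e, heY⟩ : ↥(K ⊔ E))⁻¹ : ↥(K ⊔ E)) : G) = a := by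
      rw [Subgroup.coe_mul, Subgroup.coe_inv, ← hae]
      group
    have hn2 : a ^ p ^ n = 1 := by
      have h5 : ((x * (⟨e, heY⟩ : ↥(K ⊔ E))⁻¹ : ↥(K ⊔ E)) : G) ^ p ^ n = 1 := by
        simpa using hn'
      rwa [hval] at h5
    have ha1 : a = 1 := PSI_coprime p hp K hK a ha n hn2
    rw [← hae, ha1, one_mul]
    exact he
  obtain ⟨g, hg⟩ := MulAction.exists_smul_eq (↥(K ⊔ E)) P Q
  obtain ⟨a, ha, e, he, hae⟩ := (PSI_mem_sup K E hKE g).1 g.2
  refine ⟨a, ha, fun f hf => ?_⟩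
  have hfY : f ∈ K ⊔ E := hFY hf
  have hfQ : (⟨f, hfY⟩ : ↥(K ⊔ E)) ∈ Q := hQ (Subgroup.mem_subgroupOf.2 hf)
  have hfP : g⁻¹ * (⟨f, hfY⟩ : ↥(K ⊔ E)) * g ∈ P := by
    rw [← hg] at hfQ
    have h6 : (⟨f, hfY⟩ : ↥(K ⊔ E)) ∈ MulAut.conj g • (P : Subgroup ↥(K ⊔ E)) := hfQ
    rw [Subgroup.mem_pointwise_smul_iff_inv_smul_mem] at h6
    have h7 : (MulAut.conj g)⁻¹ • (⟨f, hfY⟩ : ↥(K ⊔ E)) = g⁻¹ * (⟨f, hfY⟩ : ↥(K ⊔ E)) * g := by
      rw [← map_inv, MulAut.smul_def, MulAut.conj_apply, inv_inv]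
    rw [h7] at h6
    exact h6
  have h8 := hPE _ hfP
  have h9 : (g : G)⁻¹ * f * (g : G) ∈ E := by
    simpa using h8
  have h10 : a⁻¹ * f * a = e * ((g : G)⁻¹ * f * (g : G)) * e⁻¹ := by
    rw [← hae]; group
  rw [h10]
  exact E.mul_mem (E.mul_mem he h9) (E.inv_mem he)

theorem PSI_top {G : Type} [Group G] (s : Finset (Subgroup G))
    (hc : IsChain (· ≤ ·) (s : Set (Subgroup G))) (hs : s.Nonempty) :
    ∃ F ∈ s, ∀ E ∈ s, E ≤ F := by
  obtain ⟨F, hF, hmax⟩ := s.exists_maximal hs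
  refine ⟨F, hF, fun E hE => ?_⟩
  by_cases h : E = F
  · rw [h]
  · rcases hc (Finset.mem_coe.2 hE) (Finset.mem_coe.2 hF) h with h1 | h1
    · exact h1
    · exact hmax hE h1

theorem PSI : PSI_stmt := by
  intro G _ _ p hp K K₁ E H hK₁K hK hE hHE hKE hK₁E hK₁K' hHK hEK
  classical
  letI : Fintype (Subgroup G) := Fintype.ofFinite _
  letI : Fintype K := Fintype.ofFinite _
  letI : Fintype K₁ := Fintype.ofFinite _
  -- notation
  have memX := PSI_mem_sup K₁ E hK₁E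
  have memZ := PSI_mem_sup K₁ H (fun e he a ha => hK₁E e (hHE he) a ha)
  have hZX : K₁ ⊔ H ≤ K₁ ⊔ E := sup_le_sup_left hHE _
  have hXY : K₁ ⊔ E ≤ K ⊔ E := sup_le_sup_right hK₁K _
  -- conjugates of `X` are in `Y`
  have hXkY : ∀ k ∈ K, (K₁ ⊔ E).map (MulAut.conj k).toMonoidHom ≤ K ⊔ E := by
    intro k hk x hx
    rw [PSI_mem_conj] at hx
    have h1 : k⁻¹ * x * k ∈ K ⊔ E := hXY hx
    have hkY : k ∈ K ⊔ E := Subgroup.mem_sup_left hk
    have h2 : x = k * (k⁻¹ * x * k) * k⁻¹ := by group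
    rw [h2]
    exact mul_mem (mul_mem hkY h1) (inv_mem hkY)
  -- `Z` is normalised by `K`
  have hZK : ∀ k ∈ K, ∀ z ∈ K₁ ⊔ H, k * z * k⁻¹ ∈ K₁ ⊔ H := by
    intro k hk z hz
    obtain ⟨a, ha, h, hh, rfl⟩ := (memZ z).1 hz
    have h1 : k * a * k⁻¹ ∈ K₁ := hK₁K' k hk a ha
    have h2 : ⁅h, k⁆ ∈ K₁ := hHK h hh k hk
    have h3 : k * (a * h) * k⁻¹ = (k * a * k⁻¹) * ⁅h, k⁆⁻¹ * h := by
      rw [commutatorElement_def]; group
    rw [h3]
    exact (memZ _).2 ⟨_, K₁.mul_mem h1 (K₁.inv_mem h2), h, hh, rfl⟩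
  -- `X ∩ K = K₁`
  have hXK : ∀ x ∈ K₁ ⊔ E, x ∈ K → x ∈ K₁ := by
    intro x hx hxK
    obtain ⟨a, ha, e, he, rfl⟩ := (memX x).1 hx
    have heK : e ∈ K := by
      have h1 : e = a⁻¹ * (a * e) := by group
      rw [h1]
      exact K.mul_mem (K.inv_mem (hK₁K ha)) hxK
    have he1 : e = 1 := PSI_coprime p hp K hK e heK 1 (by rw [pow_one]; exact hE.2 e he)
    rw [he1, mul_one]; exact ha
  -- the first count
  have hcnt1 : ∀ F : Subgroup G, F ≤ K₁ ⊔ H → ∀ k ∈ K,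
      F ≤ (K₁ ⊔ E).map (MulAut.conj k).toMonoidHom := by
    intro F hF k hk f hf
    rw [PSI_mem_conj]
    have h1 := hZK k⁻¹ (K.inv_mem hk) f (hF hf)
    rw [inv_inv] at h1
    exact hZX h1
  -- the second count
  have hcnt2 : ∀ F : Subgroup G, EAb p F → F ≤ K ⊔ E → ¬ F ≤ K₁ ⊔ H → ∃ k₀ ∈ K, ∀ k ∈ K,
      (F ≤ (K₁ ⊔ E).map (MulAut.conj k).toMonoidHom ↔ k₀⁻¹ * k ∈ K₁) := by
    intro F hF hFY hFZ
    obtain ⟨k₀, hk₀, hk₀F⟩ := PSI_exists p hp K E hK hE hKE F hF hFY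
    refine ⟨k₀, hk₀, fun k hk => ?_⟩
    constructor
    · intro hFk
      obtain ⟨f, hf, hfZ⟩ := Set.not_subset.1 hFZ
      have he : k₀⁻¹ * f * k₀ ∈ E := hk₀F f hf
      set e := k₀⁻¹ * f * k₀ with hedef
      have heH : e ∉ H := by
        intro heH
        apply hfZ
        have h1 := hZK k₀ hk₀ e (Subgroup.mem_sup_right heH)
        have h2 : k₀ * e * k₀⁻¹ = f := by rw [hedef]; group
        rw [h2] at h1
        exact h1
      set u := k₀⁻¹ * k with hudef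
      have huK : u ∈ K := K.mul_mem (K.inv_mem hk₀) hk
      apply hEK e he heH u huK
      have h3 : k⁻¹ * f * k ∈ K₁ ⊔ E := (PSI_mem_conj _ _ _).1 (hFk hf)
      have h4 : u⁻¹ * e * u * e⁻¹ ∈ K₁ ⊔ E := by
        have h5 : k⁻¹ * f * k = u⁻¹ * e * u := by rw [hedef, hudef]; group
        rw [h5] at h3
        exact mul_mem h3 (inv_mem (Subgroup.mem_sup_right he))
      have h6 : u⁻¹ * e * u * e⁻¹ ∈ K := by
        have h7 : u⁻¹ * e * u * e⁻¹ = u⁻¹ * (e * u * e⁻¹) := by group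
        rw [h7]
        exact K.mul_mem (K.inv_mem huK) (hKE e he u huK)
      have h8 := hK₁K' u huK _ (hXK _ h4 h6)
      have h9 : u * (u⁻¹ * e * u * e⁻¹) * u⁻¹ = ⁅e, u⁆ := by
        rw [commutatorElement_def]; group
      rw [h9] at h8
      exact h8
    · intro hu f hf
      rw [PSI_mem_conj]
      have h1 : k⁻¹ * f * k = (k₀⁻¹ * k)⁻¹ * (k₀⁻¹ * f * k₀) * (k₀⁻¹ * k) := by group
      rw [h1]
      have h2 : k₀⁻¹ * k ∈ K₁ ⊔ E := Subgroup.mem_sup_left hu
      exact mul_mem (mul_mem (inv_mem h2) (Subgroup.mem_sup_right (hk₀F f hf))) h2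
  -- the number of elements of a coset
  have hcoset : ∀ k₀ ∈ K, (Finset.univ.filter (fun k : K => k₀⁻¹ * (k : G) ∈ K₁)).card =
      Nat.card K₁ := by
    intro k₀ hk₀
    rw [Nat.card_eq_fintype_card, ← Finset.card_univ]
    symm
    refine Finset.card_bij
      (fun (u : K₁) _ => (⟨k₀ * (u : G), K.mul_mem hk₀ (hK₁K u.2)⟩ : K)) ?_ ?_ ?_
    · intro u _
      rw [Finset.mem_filter]
      refine ⟨Finset.mem_univ _, ?_⟩
      change k₀⁻¹ * (k₀ * (u : G)) ∈ K₁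
      rw [inv_mul_cancel_left]; exact u.2
    · intro u _ v _ huv
      have := congrArg (fun z : K => (z : G)) huv
      exact Subtype.ext (mul_left_cancel this)
    · intro k hk
      rw [Finset.mem_filter] at hk
      refine ⟨⟨k₀⁻¹ * (k : G), hk.2⟩, Finset.mem_univ _, ?_⟩
      apply Subtype.ext
      change k₀ * (k₀⁻¹ * (k : G)) = k
      rw [mul_inv_cancel_left]
  -- the sum over all `k`
  have hsum1 : ∑ k : K, chi p ((K₁ ⊔ E).map (MulAut.conj (k : G)).toMonoidHom) =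
      (Nat.card K : ℤ) * chi p (K₁ ⊔ E) := by
    rw [Finset.sum_congr rfl (fun (k : K) _ => PSI_conj p (K₁ ⊔ E) (k : G)), Finset.sum_const,
      Finset.card_univ, ← Nat.card_eq_fintype_card, nsmul_eq_mul]
  have hsum2 : ∑ k : K, chi p ((K₁ ⊔ E).map (MulAut.conj (k : G)).toMonoidHom) =
      (Nat.card K₁ : ℤ) * chi p (K ⊔ E) +
        ((Nat.card K : ℤ) - (Nat.card K₁ : ℤ)) * chi p (K₁ ⊔ H) := by
    rw [Finset.sum_congr rfl (fun (k : K) _ => PSI_chi_eq p ((K₁ ⊔ E).map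
      (MulAut.conj (k : G)).toMonoidHom)), Finset.sum_comm, PSI_chi_eq p (K ⊔ E),
      PSI_chi_eq p (K₁ ⊔ H), Finset.mul_sum, Finset.mul_sum, ← Finset.sum_add_distrib]
    refine Finset.sum_congr rfl fun s _ => ?_
    by_cases hY : s ∈ Chn p (K ⊔ E)
    · by_cases hZ : s ∈ Chn p (K₁ ⊔ H)
      · have hall : ∀ k : K, s ∈ Chn p ((K₁ ⊔ E).map (MulAut.conj (k : G)).toMonoidHom) := by
          intro k
          refine ⟨hZ.1, fun F hF => ⟨(hZ.2 F hF).1, (hZ.2 F hF).2.1, ?_⟩⟩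
          exact hcnt1 F (hZ.2 F hF).2.2 k k.2
        rw [Finset.sum_congr rfl (fun (k : K) _ => if_pos (hall k)), if_pos hY, if_pos hZ,
          Finset.sum_const, Finset.card_univ, ← Nat.card_eq_fintype_card, nsmul_eq_mul]
        ring
      · have hne : s.Nonempty := by
          rw [Finset.nonempty_iff_ne_empty]
          intro h0
          apply hZ
          rw [h0]
          refine ⟨?_, fun F hF => absurd hF (Finset.notMem_empty F)⟩
          simp
        obtain ⟨F, hFs, hFtop⟩ := PSI_top s hY.1 hne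
        have hFZ : ¬ F ≤ K₁ ⊔ H := by
          intro hFZ
          apply hZ
          exact ⟨hY.1, fun D hD => ⟨(hY.2 D hD).1, (hY.2 D hD).2.1, (hFtop D hD).trans hFZ⟩⟩
        obtain ⟨k₀, hk₀, hiff⟩ := hcnt2 F (hY.2 F hFs).2.1 (hY.2 F hFs).2.2 hFZ
        have hiff2 : ∀ k : K, (s ∈ Chn p ((K₁ ⊔ E).map (MulAut.conj (k : G)).toMonoidHom) ↔
            k₀⁻¹ * (k : G) ∈ K₁) := by
          intro k
          rw [← hiff k k.2]
          constructor
          · intro h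
            exact (h.2 F hFs).2.2
          · intro h
            exact ⟨hY.1, fun D hD => ⟨(hY.2 D hD).1, (hY.2 D hD).2.1, (hFtop D hD).trans h⟩⟩
        rw [if_pos hY, if_neg hZ, mul_zero, add_zero, ← Finset.sum_filter, Finset.sum_const,
          nsmul_eq_mul]
        congr 2
        rw [← hcoset k₀ hk₀]
        congr 1
        ext k
        rw [Finset.mem_filter, Finset.mem_filter, hiff2 k]
    · have hZ : s ∉ Chn p (K₁ ⊔ H) := fun h =>
        hY ⟨h.1, fun D hD => ⟨(h.2 D hD).1, (h.2 D hD).2.1, (h.2 D hD).2.2.trans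
          (hZX.trans hXY)⟩⟩
      have hno : ∀ k : K, s ∉ Chn p ((K₁ ⊔ E).map (MulAut.conj (k : G)).toMonoidHom) :=
        fun k h => hY ⟨h.1, fun D hD => ⟨(h.2 D hD).1, (h.2 D hD).2.1,
          (h.2 D hD).2.2.trans (hXkY k k.2)⟩⟩
      rw [Finset.sum_congr rfl (fun (k : K) _ => if_neg (hno k)), if_neg hY, if_neg hZ]
      simp
  have hidx : (Nat.card K₁ : ℤ) * (K₁.relIndex K : ℤ) = (Nat.card K : ℤ) := by
    have h1 := Subgroup.relIndex_mul_relIndex (⊥ : Subgroup G) K₁ K bot_le hK₁K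
    rw [Subgroup.relIndex_bot_left, Subgroup.relIndex_bot_left] at h1
    exact_mod_cast h1
  have hpos : (Nat.card K₁ : ℤ) ≠ 0 := by
    exact_mod_cast Nat.card_pos.ne'
  apply mul_left_cancel₀ hpos
  rw [hsum1] at hsum2
  rw [← hidx] at hsum2
  linear_combination hsum2

end QS
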